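import Pool.Agent.U481.GL.Stm
import Pool.Agent.H153R4.Pl

/-!
# Project GL, package L2: the `L²` bound of the area function (Plancherel)
-/

set_option autoImplicit false

open MeasureTheory Filter Topology Set
open scoped ENNReal NNReal Real FourierTransform

namespace Pool.Agent.U978.GL

open Pool.Agent.U481.GL

/-! ### exponentials -/

lemma bdG {b : ℝ} (hb : 0 < b) {t : ℝ} (ht : 0 ≤ t) :
    t * Real.exp (-b * t) ≤ (1 / b + 6 / b ^ 3) * (1 + t ^ 2)⁻¹ := by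
  have h1 := Real.pow_div_factorial_le_exp (b * t) (by positivity) 1
  have h3 := Real.pow_div_factorial_le_exp (b * t) (by positivity) 3
  have hE := Real.exp_pos (b * t)
  rw [neg_mul, Real.exp_neg, ← div_eq_mul_inv, ← div_eq_mul_inv, div_le_div_iff₀ hE (by positivity)]
  simp only [pow_one, Nat.factorial, Nat.succ_eq_add_one] at h1 h3
  norm_num at h1
  norm_num at h3
  have e1 : t ≤ 1 / b * Real.exp (b * t) := by
    rw [one_div, ← div_eq_inv_mul, le_div_iff₀ hb]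
    linarith
  have e3 : t ^ 3 ≤ 6 / b ^ 3 * Real.exp (b * t) := by
    rw [div_mul_eq_mul_div, le_div_iff₀ (by positivity)]
    have : (b * t) ^ 3 = t ^ 3 * b ^ 3 := by ring
    rw [this] at h3
    linarith
  calc t * (1 + t ^ 2) = t + t ^ 3 := by ring
    _ ≤ 1 / b * Real.exp (b * t) + 6 / b ^ 3 * Real.exp (b * t) := add_le_add e1 e3
    _ = _ := by ring

lemma intG {b : ℝ} (hb : 0 < b) : Integrable (fun ξ : ℝ => |ξ| * Real.exp (-b * |ξ|)) := by
  refine (integrable_inv_one_add_sq.const_mul (1 / b + 6 / b ^ 3)).mono'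
    (by fun_prop) (ae_of_all _ fun ξ => ?_)
  rw [Real.norm_eq_abs, abs_of_nonneg (by positivity)]
  have := bdG hb (abs_nonneg ξ)
  rwa [sq_abs] at this

lemma int_cexp {a : ℂ} (ha : 0 < a.re) :
    IntegrableOn (fun ξ : ℝ => (ξ : ℂ) * Complex.exp (-a * ξ)) (Ioi 0) := by
  refine ((intG ha).integrableOn (s := Ioi 0)).mono' (by fun_prop)
    ((ae_restrict_iff' measurableSet_Ioi).2 (ae_of_all _ fun ξ hξ => ?_))
  have hξ' : (0 : ℝ) < ξ := hξ
  rw [norm_mul, Complex.norm_real, Complex.norm_exp, Real.norm_eq_abs, abs_of_pos hξ']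
  simp

lemma val_cexp {a : ℂ} (ha : 0 < a.re) :
    ∫ ξ in Ioi (0 : ℝ), (ξ : ℂ) * Complex.exp (-a * ξ) = 1 / a ^ 2 := by
  have ha0 : a ≠ 0 := by rintro rfl; simp at ha
  have hd : ∀ ξ : ℝ, HasDerivAt (fun ξ : ℝ => -((ξ : ℂ) / a + 1 / a ^ 2) * Complex.exp (-a * ξ))
      ((ξ : ℂ) * Complex.exp (-a * ξ)) ξ := by
    intro ξ
    have h1 : HasDerivAt (fun ξ : ℝ => (ξ : ℂ)) 1 ξ := Complex.ofRealCLM.hasDerivAt
    have hA : HasDerivAt (fun ξ : ℝ => -((ξ : ℂ) / a + 1 / a ^ 2)) (-(1 / a)) ξ :=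
      ((h1.div_const a).add_const (1 / a ^ 2)).neg
    have hB : HasDerivAt (fun ξ : ℝ => Complex.exp (-a * ξ))
        (Complex.exp (-a * ξ) * (-a * 1)) ξ := (h1.const_mul (-a)).cexp
    refine (hA.mul hB).congr_deriv ?_
    have e : (1 / a) * a = 1 := by field_simp
    have e2 : (1 / a ^ 2) * a = 1 / a := by field_simp
    have e3 : ((ξ : ℂ) / a) * a = ξ := by field_simp
    calc -(1 / a) * Complex.exp (-a * ξ) +
        -((ξ : ℂ) / a + 1 / a ^ 2) * (Complex.exp (-a * ξ) * (-a * 1)) =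
        Complex.exp (-a * ξ) * (-(1 / a) + (((ξ : ℂ) / a) * a + (1 / a ^ 2) * a)) := by ring
      _ = _ := by rw [e2, e3]; ring
  have t1 : Tendsto (fun ξ : ℝ => ξ * Real.exp (-a.re * ξ)) atTop (𝓝 0) := by
    have h1 := (Real.tendsto_pow_mul_exp_neg_atTop_nhds_zero 1).comp
      (tendsto_id.const_mul_atTop ha)
    have h2 := h1.const_mul (1 / a.re)
    rw [mul_zero] at h2
    refine h2.congr fun ξ => ?_
    simp only [Function.comp, id, pow_one]
    field_simp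
  have t2 : Tendsto (fun ξ : ℝ => Real.exp (-a.re * ξ)) atTop (𝓝 0) := by
    have h1 := (Real.tendsto_pow_mul_exp_neg_atTop_nhds_zero 0).comp
      (tendsto_id.const_mul_atTop ha)
    refine h1.congr fun ξ => ?_
    simp only [Function.comp, id, pow_zero, one_mul, neg_mul]
  have htend : Tendsto (fun ξ : ℝ => -((ξ : ℂ) / a + 1 / a ^ 2) * Complex.exp (-a * ξ)) atTop
      (𝓝 0) := by
    rw [tendsto_zero_iff_norm_tendsto_zero]
    have h3 : Tendsto (fun ξ : ℝ => (1 / ‖a‖) * (ξ * Real.exp (-a.re * ξ)) +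
        (1 / ‖a‖ ^ 2) * Real.exp (-a.re * ξ)) atTop (𝓝 0) := by
      have := (t1.const_mul (1 / ‖a‖)).add (t2.const_mul (1 / ‖a‖ ^ 2))
      simpa using this
    refine squeeze_zero' (Eventually.of_forall fun ξ => norm_nonneg _) ?_ h3
    filter_upwards [eventually_ge_atTop 0] with ξ hξ
    rw [norm_mul, norm_neg, Complex.norm_exp]
    have h4 : (-a * (ξ : ℂ)).re = -a.re * ξ := by simp
    rw [h4]
    have h5 : ‖(ξ : ℂ) / a + 1 / a ^ 2‖ ≤ ξ / ‖a‖ + 1 / ‖a‖ ^ 2 := by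
      refine (norm_add_le _ _).trans (le_of_eq ?_)
      rw [norm_div, norm_div, norm_pow, norm_one, Complex.norm_real, Real.norm_eq_abs,
        abs_of_nonneg hξ]
    calc ‖(ξ : ℂ) / a + 1 / a ^ 2‖ * Real.exp (-a.re * ξ)
        ≤ (ξ / ‖a‖ + 1 / ‖a‖ ^ 2) * Real.exp (-a.re * ξ) := by gcongr
      _ = _ := by ring
  have h := integral_Ioi_of_hasDerivAt_of_tendsto (a := (0 : ℝ))
    (hd 0).continuousAt.continuousWithinAt (fun x _ => hd x) (int_cexp ha) htend
  rw [h]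
  simp

/-! ### the Fourier transforms of the kernels -/

noncomputable def hz (y ξ : ℝ) : ℂ := 2 * π * Complex.I * ξ * Real.exp (-(2 * π * y) * |ξ|)

noncomputable def hy (y ξ : ℝ) : ℂ := -(2 * π * |ξ| * Real.exp (-(2 * π * y) * |ξ|))

lemma norm_hz (y ξ : ℝ) : ‖hz y ξ‖ = 2 * π * (|ξ| * Real.exp (-(2 * π * y) * |ξ|)) := by
  unfold hz
  rw [norm_mul, norm_mul, norm_mul, norm_mul, Complex.norm_real, Complex.norm_real,
    Complex.norm_real, Complex.norm_I, Real.norm_eq_abs, Real.norm_eq_abs, Real.norm_eq_abs,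
    abs_of_pos Real.pi_pos, abs_of_pos (Real.exp_pos _), Complex.norm_ofNat]
  ring

lemma norm_hy (y ξ : ℝ) : ‖hy y ξ‖ = 2 * π * (|ξ| * Real.exp (-(2 * π * y) * |ξ|)) := by
  unfold hy
  rw [norm_neg, norm_mul, norm_mul, norm_mul, Complex.norm_real, Complex.norm_real,
    Complex.norm_real, Real.norm_eq_abs, Real.norm_eq_abs, Real.norm_eq_abs, abs_abs,
    abs_of_pos Real.pi_pos, abs_of_pos (Real.exp_pos _), Complex.norm_ofNat]
  ring

lemma cont_hz : Continuous fun q : ℝ × ℝ => hz q.1 q.2 := by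
  unfold hz; fun_prop

lemma cont_hy : Continuous fun q : ℝ × ℝ => hy q.1 q.2 := by
  unfold hy; fun_prop

lemma cont_hz' (y : ℝ) : Continuous (hz y) := by
  have : Continuous fun ξ : ℝ => (fun q : ℝ × ℝ => hz q.1 q.2) (y, ξ) :=
    cont_hz.comp (by fun_prop)
  exact this

lemma cont_hy' (y : ℝ) : Continuous (hy y) := by
  have : Continuous fun ξ : ℝ => (fun q : ℝ × ℝ => hy q.1 q.2) (y, ξ) :=
    cont_hy.comp (by fun_prop)
  exact this

lemma int_hz {y : ℝ} (hy0 : 0 < y) : Integrable (hz y) := by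
  have hb : 0 < 2 * π * y := by positivity
  refine ((intG hb).const_mul (2 * π)).mono' (cont_hz' y).aestronglyMeasurable
    (ae_of_all _ fun ξ => ?_)
  rw [norm_hz]

lemma int_hy {y : ℝ} (hy0 : 0 < y) : Integrable (hy y) := by
  have hb : 0 < 2 * π * y := by positivity
  refine ((intG hb).const_mul (2 * π)).mono' (cont_hy' y).aestronglyMeasurable
    (ae_of_all _ fun ξ => ?_)
  rw [norm_hy]

lemma bd_h {y : ℝ} (hy0 : 0 < y) (ξ : ℝ) : 2 * π * (|ξ| * Real.exp (-(2 * π * y) * |ξ|)) ≤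
    2 * π * (1 / (2 * π * y) + 6 / (2 * π * y) ^ 3) := by
  have hb : 0 < 2 * π * y := by positivity
  have h1 := bdG hb (abs_nonneg ξ)
  have h2 : (1 + |ξ| ^ 2)⁻¹ ≤ 1 := inv_le_one_of_one_le₀ (by nlinarith [sq_nonneg |ξ|])
  have h3 : 0 ≤ 1 / (2 * π * y) + 6 / (2 * π * y) ^ 3 := by positivity
  have h4 : (1 / (2 * π * y) + 6 / (2 * π * y) ^ 3) * (1 + |ξ| ^ 2)⁻¹ ≤
      1 / (2 * π * y) + 6 / (2 * π * y) ^ 3 := by
    calc _ ≤ (1 / (2 * π * y) + 6 / (2 * π * y) ^ 3) * 1 := by gcongr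
      _ = _ := mul_one _
  have h5 : 0 ≤ 2 * π := by positivity
  exact mul_le_mul_of_nonneg_left (h1.trans h4) h5

lemma split_int {F : ℝ → ℂ} (hF : Integrable F) :
    ∫ ξ, F ξ = (∫ ξ in Ioi (0 : ℝ), F (-ξ)) + ∫ ξ in Ioi (0 : ℝ), F ξ := by
  rw [← intervalIntegral.integral_Iic_add_Ioi (b := (0 : ℝ)) hF.integrableOn hF.integrableOn]
  congr 1
  have h := integral_comp_neg_Ioi (0 : ℝ) F
  rw [neg_zero] at h
  exact h.symm

lemma mul_char_int {h : ℝ → ℂ} (hh : Integrable h) (x : ℝ) :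
    Integrable fun ξ : ℝ => h ξ * Complex.exp (((2 * π * x * ξ : ℝ) : ℂ) * Complex.I) := by
  refine hh.norm.mono' (hh.aestronglyMeasurable.mul (by fun_prop)) (ae_of_all _ fun ξ => ?_)
  rw [norm_mul, Complex.norm_exp_ofReal_mul_I, mul_one]

lemma re_a {y : ℝ} (hy0 : 0 < y) (x : ℝ) : 0 < (2 * (π : ℂ) * (y - x * Complex.I)).re := by
  have : (2 * (π : ℂ) * (y - x * Complex.I)).re = 2 * π * y := by simp
  rw [this]; positivity

lemma re_b {y : ℝ} (hy0 : 0 < y) (x : ℝ) : 0 < (2 * (π : ℂ) * (y + x * Complex.I)).re := by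
  have : (2 * (π : ℂ) * (y + x * Complex.I)).re = 2 * π * y := by simp
  rw [this]; positivity

lemma uv_ne {y : ℝ} (hy0 : 0 < y) (x : ℝ) : (y - x * Complex.I : ℂ) ≠ 0 ∧
    (y + x * Complex.I : ℂ) ≠ 0 := by
  constructor
  · intro h
    have := congrArg Complex.re h
    simp at this
    linarith
  · intro h
    have := congrArg Complex.re h
    simp at this
    linarith

lemma alg1 {u v p : ℂ} (hu : u ≠ 0) (hv : v ≠ 0) (hp : p ≠ 0) :
    -(2 * p * Complex.I) * (1 / (2 * p * v) ^ 2) + 2 * p * Complex.I * (1 / (2 * p * u) ^ 2) =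
      (Complex.I / (2 * p)) * (v ^ 2 - u ^ 2) / (u * v) ^ 2 := by
  field_simp
  ring

lemma alg2 {u v p : ℂ} (hu : u ≠ 0) (hv : v ≠ 0) (hp : p ≠ 0) :
    -(2 * p) * (1 / (2 * p * v) ^ 2) + -(2 * p) * (1 / (2 * p * u) ^ 2) =
      (-1 / (2 * p)) * (v ^ 2 + u ^ 2) / (u * v) ^ 2 := by
  field_simp
  ring

lemma ker_z {y : ℝ} (hy0 : 0 < y) (x : ℝ) : ((kz x y : ℝ) : ℂ) =
    ∫ ξ : ℝ, hz y ξ * Complex.exp (((2 * π * x * ξ : ℝ) : ℂ) * Complex.I) := by
  rw [split_int (mul_char_int (int_hz hy0) x)]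
  have e1 : ∫ ξ in Ioi (0 : ℝ), hz y (-ξ) *
      Complex.exp (((2 * π * x * (-ξ) : ℝ) : ℂ) * Complex.I) =
      ∫ ξ in Ioi (0 : ℝ), -(2 * π * Complex.I) *
        ((ξ : ℂ) * Complex.exp (-(2 * (π : ℂ) * (y + x * Complex.I)) * ξ)) := by
    refine setIntegral_congr_fun measurableSet_Ioi fun ξ hξ => ?_
    have hξ' : (0 : ℝ) < ξ := hξ
    simp only [hz, abs_neg, abs_of_pos hξ']
    rw [Complex.ofReal_exp]
    have : Complex.exp (-(2 * (π : ℂ) * (y + x * Complex.I)) * ξ) =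
        Complex.exp ((-(2 * π * y) * ξ : ℝ) : ℂ) *
          Complex.exp (((2 * π * x * (-ξ) : ℝ) : ℂ) * Complex.I) := by
      rw [← Complex.exp_add]
      congr 1
      push_cast
      ring
    rw [this]
    push_cast
    ring
  have e2 : ∫ ξ in Ioi (0 : ℝ), hz y ξ *
      Complex.exp (((2 * π * x * ξ : ℝ) : ℂ) * Complex.I) =
      ∫ ξ in Ioi (0 : ℝ), (2 * π * Complex.I) *
        ((ξ : ℂ) * Complex.exp (-(2 * (π : ℂ) * (y - x * Complex.I)) * ξ)) := by
    refine setIntegral_congr_fun measurableSet_Ioi fun ξ hξ => ?_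
    have hξ' : (0 : ℝ) < ξ := hξ
    simp only [hz, abs_of_pos hξ']
    rw [Complex.ofReal_exp]
    have : Complex.exp (-(2 * (π : ℂ) * (y - x * Complex.I)) * ξ) =
        Complex.exp ((-(2 * π * y) * ξ : ℝ) : ℂ) *
          Complex.exp (((2 * π * x * ξ : ℝ) : ℂ) * Complex.I) := by
      rw [← Complex.exp_add]
      congr 1
      push_cast
      ring
    rw [this]
    ring
  rw [e1, e2, integral_const_mul, integral_const_mul, val_cexp (re_b hy0 x),
    val_cexp (re_a hy0 x)]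
  obtain ⟨hu, hv⟩ := uv_ne hy0 x
  have hpi : (π : ℂ) ≠ 0 := by exact_mod_cast Real.pi_ne_zero
  have hxy : ((x : ℂ) ^ 2 + (y : ℂ) ^ 2) = (y - x * Complex.I) * (y + x * Complex.I) := by
    ring_nf
    rw [Complex.I_sq]
    ring
  unfold kz
  push_cast
  rw [hxy]
  have hI : Complex.I ^ 2 = -1 := Complex.I_sq
  rw [alg1 hu hv hpi]
  have h2 : ((y : ℂ) + x * Complex.I) ^ 2 - (y - x * Complex.I) ^ 2 = 4 * x * y * Complex.I := by
    ring
  rw [h2]
  have h3 : Complex.I / (2 * (π : ℂ)) * (4 * x * y * Complex.I) = -(2 * x * y) / π := by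
    have : Complex.I / (2 * (π : ℂ)) * (4 * x * y * Complex.I) =
        Complex.I ^ 2 * (2 * x * y) / π := by
      field_simp
      ring
    rw [this, hI]
    ring
  rw [h3, div_div]

lemma ker_y {y : ℝ} (hy0 : 0 < y) (x : ℝ) : ((ky x y : ℝ) : ℂ) =
    ∫ ξ : ℝ, hy y ξ * Complex.exp (((2 * π * x * ξ : ℝ) : ℂ) * Complex.I) := by
  rw [split_int (mul_char_int (int_hy hy0) x)]
  have e1 : ∫ ξ in Ioi (0 : ℝ), hy y (-ξ) *
      Complex.exp (((2 * π * x * (-ξ) : ℝ) : ℂ) * Complex.I) =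
      ∫ ξ in Ioi (0 : ℝ), -(2 * π) *
        ((ξ : ℂ) * Complex.exp (-(2 * (π : ℂ) * (y + x * Complex.I)) * ξ)) := by
    refine setIntegral_congr_fun measurableSet_Ioi fun ξ hξ => ?_
    have hξ' : (0 : ℝ) < ξ := hξ
    simp only [hy, abs_neg, abs_of_pos hξ']
    rw [Complex.ofReal_exp]
    have : Complex.exp (-(2 * (π : ℂ) * (y + x * Complex.I)) * ξ) =
        Complex.exp ((-(2 * π * y) * ξ : ℝ) : ℂ) *
          Complex.exp (((2 * π * x * (-ξ) : ℝ) : ℂ) * Complex.I) := by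
      rw [← Complex.exp_add]
      congr 1
      push_cast
      ring
    rw [this]
    ring
  have e2 : ∫ ξ in Ioi (0 : ℝ), hy y ξ *
      Complex.exp (((2 * π * x * ξ : ℝ) : ℂ) * Complex.I) =
      ∫ ξ in Ioi (0 : ℝ), -(2 * π) *
        ((ξ : ℂ) * Complex.exp (-(2 * (π : ℂ) * (y - x * Complex.I)) * ξ)) := by
    refine setIntegral_congr_fun measurableSet_Ioi fun ξ hξ => ?_
    have hξ' : (0 : ℝ) < ξ := hξ
    simp only [hy, abs_of_pos hξ']
    rw [Complex.ofReal_exp]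
    have : Complex.exp (-(2 * (π : ℂ) * (y - x * Complex.I)) * ξ) =
        Complex.exp ((-(2 * π * y) * ξ : ℝ) : ℂ) *
          Complex.exp (((2 * π * x * ξ : ℝ) : ℂ) * Complex.I) := by
      rw [← Complex.exp_add]
      congr 1
      push_cast
      ring
    rw [this]
    ring
  rw [e1, e2, integral_const_mul, integral_const_mul, val_cexp (re_b hy0 x),
    val_cexp (re_a hy0 x)]
  obtain ⟨hu, hv⟩ := uv_ne hy0 x
  have hpi : (π : ℂ) ≠ 0 := by exact_mod_cast Real.pi_ne_zero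
  have hxy : ((x : ℂ) ^ 2 + (y : ℂ) ^ 2) = (y - x * Complex.I) * (y + x * Complex.I) := by
    ring_nf
    rw [Complex.I_sq]
    ring
  have hI : Complex.I ^ 2 = -1 := Complex.I_sq
  rw [alg2 hu hv hpi]
  have h2 : ((y : ℂ) + x * Complex.I) ^ 2 + (y - x * Complex.I) ^ 2 =
      2 * (y ^ 2 - x ^ 2) := by
    have : ((y : ℂ) + x * Complex.I) ^ 2 + (y - x * Complex.I) ^ 2 =
      2 * (y ^ 2 + x ^ 2 * Complex.I ^ 2) := by ring
    rw [this, hI]
    ring
  rw [h2]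
  unfold ky
  push_cast
  rw [← hxy]
  have h3 : (-1 / (2 * (π : ℂ))) * (2 * (y ^ 2 - x ^ 2)) = (x ^ 2 - y ^ 2) / π := by
    field_simp
    ring
  rw [h3, div_div]

/-! ### Plancherel -/

lemma conv_eq {h : ℝ → ℂ} (hh : Integrable h) {k : ℝ → ℝ}
    (hk : ∀ x, ((k x : ℝ) : ℂ) = ∫ ξ, h ξ * Complex.exp (((2 * π * x * ξ : ℝ) : ℂ) * Complex.I))
    {f : ℝ → ℂ} (hf : Integrable f) (z : ℝ) :
    ∫ t, ((k (z - t) : ℝ) : ℂ) * f t = 𝓕 (fun ξ => h ξ * 𝓕 f ξ) (-z) := by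
  have e1 : ∀ t, ((k (z - t) : ℝ) : ℂ) * f t =
      ∫ ξ, h ξ * Complex.exp (((2 * π * (z - t) * ξ : ℝ) : ℂ) * Complex.I) * f t := by
    intro t
    rw [hk, integral_mul_const]
  simp_rw [e1]
  rw [integral_integral_swap]
  · rw [Real.fourier_real_eq_integral_exp_smul]
    refine integral_congr_ae (ae_of_all _ fun ξ => ?_)
    simp only
    rw [Real.fourier_real_eq_integral_exp_smul f ξ, smul_eq_mul, ← integral_const_mul,
      ← integral_const_mul]
    refine integral_congr_ae (ae_of_all _ fun t => ?_)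
    simp only [smul_eq_mul]
    have : Complex.exp (((2 * π * (z - t) * ξ : ℝ) : ℂ) * Complex.I) =
        Complex.exp (((-2 * π * ξ * -z : ℝ) : ℂ) * Complex.I) *
          Complex.exp (((-2 * π * t * ξ : ℝ) : ℂ) * Complex.I) := by
      rw [← Complex.exp_add]
      congr 1
      push_cast
      ring
    rw [this]
    ring
  · have h1 : Integrable (fun q : ℝ × ℝ => f q.1 * h q.2) (volume.prod volume) := hf.mul_prod hh
    refine (h1.norm).mono' ?_ (ae_of_all _ fun q => ?_)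
    · have h2 : AEStronglyMeasurable (fun q : ℝ × ℝ => (f q.1 * h q.2) *
          Complex.exp (((2 * π * (z - q.1) * q.2 : ℝ) : ℂ) * Complex.I)) (volume.prod volume) :=
        h1.aestronglyMeasurable.mul (by fun_prop)
      refine h2.congr (ae_of_all _ fun q => ?_)
      simp only [Function.uncurry]
      ring
    · simp only [Function.uncurry]
      rw [norm_mul, norm_mul, norm_mul, Complex.norm_exp_ofReal_mul_I, mul_one, mul_comm]

lemma cont_four {f : ℝ → ℂ} (hf : Integrable f) : Continuous (𝓕 f) := by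
  have := VectorFourier.fourierIntegral_continuous (L := innerₗ ℝ) Real.continuous_fourierChar
    continuous_inner hf
  exact this

lemma bd_four {f : ℝ → ℂ} (ξ : ℝ) : ‖𝓕 f ξ‖ ≤ ∫ t, ‖f t‖ :=
  VectorFourier.norm_fourierIntegral_le_integral_norm _ _ _ _ _

lemma pl {h : ℝ → ℂ} (hh : Integrable h) (hc : Continuous h) {B : ℝ} (hB : ∀ ξ, ‖h ξ‖ ≤ B)
    {k : ℝ → ℝ}
    (hk : ∀ x, ((k x : ℝ) : ℂ) = ∫ ξ, h ξ * Complex.exp (((2 * π * x * ξ : ℝ) : ℂ) * Complex.I))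
    {f : ℝ → ℂ} (hf : Integrable f) :
    ∫⁻ z, ‖∫ t, ((k (z - t) : ℝ) : ℂ) * f t‖ₑ ^ 2 = ∫⁻ ξ, ‖h ξ‖ₑ ^ 2 * ‖𝓕 f ξ‖ₑ ^ 2 := by
  set g : ℝ → ℂ := fun ξ => h ξ * 𝓕 f ξ with hg
  have hgc : Continuous g := hc.mul (cont_four hf)
  set A : ℝ := ∫ t, ‖f t‖ with hA
  have hA0 : 0 ≤ A := integral_nonneg fun _ => norm_nonneg _
  have hg1 : Integrable g := by
    refine (hh.norm.const_mul A).mono' hgc.aestronglyMeasurable (ae_of_all _ fun ξ => ?_)
    rw [hg]
    simp only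
    rw [norm_mul, mul_comm]
    gcongr
    exact bd_four ξ
  have hgb : ∀ ξ, ‖g ξ‖ ≤ B * A := by
    intro ξ
    rw [hg]
    simp only
    rw [norm_mul]
    exact mul_le_mul (hB ξ) (bd_four ξ) (norm_nonneg _) ((norm_nonneg _).trans (hB ξ))
  have hg2 : MemLp g 2 := by
    rw [memLp_two_iff_integrable_sq_norm hgc.aestronglyMeasurable]
    refine (hg1.norm.const_mul (B * A)).mono' (by fun_prop) (ae_of_all _ fun ξ => ?_)
    rw [norm_pow, norm_norm, sq]
    gcongr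
    exact hgb ξ
  have h1 := Pool.Agent.H153R4.plancherel g hg1 hg2
  calc ∫⁻ z, ‖∫ t, ((k (z - t) : ℝ) : ℂ) * f t‖ₑ ^ 2 = ∫⁻ z, ‖𝓕 g (-z)‖ₑ ^ 2 := by
        refine lintegral_congr fun z => ?_
        rw [conv_eq hh hk hf z]
    _ = ∫⁻ z, ‖𝓕 g z‖ₑ ^ 2 := by
        have := (Measure.measurePreserving_neg (volume : Measure ℝ)).lintegral_comp_emb
          (MeasurableEquiv.neg ℝ).measurableEmbedding (fun z => ‖𝓕 g z‖ₑ ^ 2)
        exact this
    _ = ∫⁻ ξ, ‖g ξ‖ₑ ^ 2 := h1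
    _ = _ := by
        refine lintegral_congr fun ξ => ?_
        rw [hg]
        simp only
        rw [enorm_mul, mul_pow]

/-! ### measurability -/

lemma meas_kz : Measurable fun p : ℝ × ℝ => kz p.1 p.2 := by
  unfold kz; fun_prop

lemma meas_ky : Measurable fun p : ℝ × ℝ => ky p.1 p.2 := by
  unfold ky; fun_prop

lemma meas_conv {k : ℝ → ℝ → ℝ} (hk : Measurable fun p : ℝ × ℝ => k p.1 p.2) {f : ℝ → ℂ}
    (hf : Integrable f) : Measurable fun q : ℝ × ℝ => ∫ t, ((k (q.1 - t) q.2 : ℝ) : ℂ) * f t := by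
  set f' := hf.aestronglyMeasurable.mk f with hf'
  have hff : f =ᵐ[volume] f' := hf.aestronglyMeasurable.ae_eq_mk
  have hm : StronglyMeasurable f' := hf.aestronglyMeasurable.stronglyMeasurable_mk
  have e : (fun q : ℝ × ℝ => ∫ t, ((k (q.1 - t) q.2 : ℝ) : ℂ) * f t) =
      fun q : ℝ × ℝ => ∫ t, ((k (q.1 - t) q.2 : ℝ) : ℂ) * f' t := by
    funext q
    refine integral_congr_ae ?_
    filter_upwards [hff] with t ht
    rw [ht]
  rw [e]
  have h1 : Measurable fun r : (ℝ × ℝ) × ℝ => ((k (r.1.1 - r.2) r.1.2 : ℝ) : ℂ) * f' r.2 := by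
    refine Measurable.mul ?_ (hm.measurable.comp measurable_snd)
    refine Complex.measurable_ofReal.comp ?_
    exact hk.comp (by fun_prop : Measurable fun r : (ℝ × ℝ) × ℝ => (r.1.1 - r.2, r.1.2))
  exact (StronglyMeasurable.integral_prod_right' (f := fun r : (ℝ × ℝ) × ℝ =>
    ((k (r.1.1 - r.2) r.1.2 : ℝ) : ℂ) * f' r.2) h1.stronglyMeasurable).measurable

lemma meas_G2 {f : ℝ → ℂ} (hf : Integrable f) : Measurable (G2 f) := by
  have h1 : Measurable (Gz f) := meas_conv meas_kz hf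
  have h2 : Measurable (Gy f) := meas_conv meas_ky hf
  unfold G2
  exact ((h1.enorm).pow_const 2).add ((h2.enorm).pow_const 2)

/-! ### the integral in `y` -/

lemma lint_exp {b : ℝ} (hb : 0 < b) :
    ∫⁻ y in Ioi (0 : ℝ), ENNReal.ofReal (y * Real.exp (-b * y)) = ENNReal.ofReal (1 / b ^ 2) := by
  have hint : IntegrableOn (fun y : ℝ => y * Real.exp (-b * y)) (Ioi 0) := by
    refine ((intG hb).integrableOn (s := Ioi 0)).congr_fun (fun y hy => ?_) measurableSet_Ioi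
    have hy' : (0 : ℝ) < y := hy
    simp only [abs_of_pos hy']
  rw [← ofReal_integral_eq_lintegral_ofReal hint
    ((ae_restrict_iff' measurableSet_Ioi).2 (ae_of_all _ fun y hy => by
      have hy' : (0 : ℝ) < y := hy
      positivity))]
  congr 1
  have h := Real.integral_rpow_mul_exp_neg_mul_Ioi (a := 2) (r := b) (by norm_num) hb
  rw [Real.Gamma_two, mul_one] at h
  have h2 : ((1 : ℝ) / b) ^ (2 : ℝ) = 1 / b ^ 2 := by
    rw [Real.rpow_ofNat]
    field_simp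
  rw [h2] at h
  rw [← h]
  refine setIntegral_congr_fun measurableSet_Ioi fun y hy => ?_
  have h3 : (2 : ℝ) - 1 = 1 := by norm_num
  simp only [h3, Real.rpow_one, neg_mul]

lemma y_int (ξ : ℝ) : ∫⁻ y : ℝ, ENNReal.ofReal (2 * y) * (‖hz y ξ‖ₑ ^ 2 + ‖hy y ξ‖ₑ ^ 2) ≤ 1 := by
  have h0 : ∀ y : ℝ, ‖hz y ξ‖ₑ ^ 2 + ‖hy y ξ‖ₑ ^ 2 =
      ENNReal.ofReal (2 * (2 * π * |ξ|) ^ 2 * Real.exp (-(2 * (2 * π * |ξ|)) * y)) := by
    intro y
    rw [← ofReal_norm, ← ofReal_norm, norm_hz, norm_hy, ← ENNReal.ofReal_pow (by positivity),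
      ← ENNReal.ofReal_add (by positivity) (by positivity)]
    congr 1
    have : Real.exp (-(2 * (2 * π * |ξ|)) * y) = Real.exp (-(2 * π * y) * |ξ|) ^ 2 := by
      rw [← Real.exp_nat_mul]
      congr 1
      push_cast
      ring
    rw [this]
    ring
  simp_rw [h0]
  rcases eq_or_ne ξ 0 with rfl | hξ
  · simp
  have hc : 0 < 2 * π * |ξ| := by positivity
  set c := 2 * π * |ξ| with hcdef
  have h1 : ∀ y : ℝ, ENNReal.ofReal (2 * y) * ENNReal.ofReal (2 * c ^ 2 * Real.exp (-(2 * c) * y)) =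
      (Ioi (0 : ℝ)).indicator (fun y => ENNReal.ofReal (4 * c ^ 2) *
        ENNReal.ofReal (y * Real.exp (-(2 * c) * y))) y := by
    intro y
    by_cases hy : y ∈ Ioi (0 : ℝ)
    · have hy' : (0 : ℝ) < y := hy
      rw [indicator_of_mem hy, ← ENNReal.ofReal_mul (by positivity),
        ← ENNReal.ofReal_mul (by positivity)]
      congr 1
      ring
    · have hy' : y ≤ 0 := not_lt.1 hy
      rw [indicator_of_notMem hy, ENNReal.ofReal_of_nonpos (by linarith), zero_mul]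
  simp_rw [h1]
  rw [lintegral_indicator measurableSet_Ioi, lintegral_const_mul _ (by fun_prop),
    lint_exp (by positivity), ← ENNReal.ofReal_mul (by positivity)]
  have h2 : 4 * c ^ 2 * (1 / (2 * c) ^ 2) = 1 := by
    field_simp
    norm_num
  rw [h2, ENNReal.ofReal_one]

/-! ### the theorem -/

theorem main : S_l2 := by
  refine ⟨1, ENNReal.one_lt_top, fun f hf hf2 => ?_⟩
  have hG := meas_G2 hf
  have hmem : MemLp f 2 := by
    rw [memLp_two_iff_integrable_sq_norm hf.aestronglyMeasurable]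
    refine ⟨(hf.aestronglyMeasurable.norm.pow 2), ?_⟩
    unfold HasFiniteIntegral
    refine lt_of_le_of_lt (lintegral_mono fun x => ?_) hf2
    rw [enorm_pow, enorm_norm]
  have hF := Pool.Agent.H153R4.plancherel f hf hmem
  have s1 : ∀ x, (SF f x) ^ 2 = ∫⁻ q : ℝ × ℝ, {q : ℝ × ℝ | |q.1 - x| < q.2}.indicator (G2 f) q := by
    intro x
    have hms : MeasurableSet {q : ℝ × ℝ | |q.1 - x| < q.2} :=
      measurableSet_lt (by fun_prop) measurable_snd
    have hset : cone 1 x = {q : ℝ × ℝ | |q.1 - x| < q.2} := by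
      ext q
      simp [cone]
    unfold SF SG
    rw [lintegral_indicator hms, hset, ← ENNReal.rpow_natCast, ← ENNReal.rpow_mul]
    norm_num
  simp_rw [s1]
  rw [lintegral_lintegral_swap]
  · have s2 : ∀ q : ℝ × ℝ, ∫⁻ x, {q : ℝ × ℝ | |q.1 - x| < q.2}.indicator (G2 f) q =
        G2 f q * ENNReal.ofReal (2 * q.2) := by
      intro q
      have h1 : ∀ x, {q : ℝ × ℝ | |q.1 - x| < q.2}.indicator (G2 f) q =
          (Metric.ball q.1 q.2).indicator (fun _ => G2 f q) x := by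
        intro x
        by_cases h : |q.1 - x| < q.2
        · rw [indicator_of_mem (by exact h), indicator_of_mem]
          rw [Metric.mem_ball, Real.dist_eq, abs_sub_comm]
          exact h
        · rw [indicator_of_notMem (by exact h), indicator_of_notMem]
          rw [Metric.mem_ball, Real.dist_eq, abs_sub_comm]
          exact h
      simp_rw [h1]
      rw [lintegral_indicator measurableSet_ball, lintegral_const, Measure.restrict_apply_univ,
        Real.volume_ball]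
    simp_rw [s2]
    have m0 : Measurable fun q : ℝ × ℝ => G2 f q * ENNReal.ofReal (2 * q.2) :=
      hG.mul (by fun_prop)
    rw [Measure.volume_eq_prod, lintegral_prod_symm
      (fun q : ℝ × ℝ => G2 f q * ENNReal.ofReal (2 * q.2)) m0.aemeasurable]
    have s3 : ∀ y : ℝ, ∫⁻ z : ℝ, G2 f (z, y) * ENNReal.ofReal (2 * (z, y).2) =
        ∫⁻ ξ : ℝ, ENNReal.ofReal (2 * y) * ((‖hz y ξ‖ₑ ^ 2 + ‖hy y ξ‖ₑ ^ 2) * ‖𝓕 f ξ‖ₑ ^ 2) := by
      intro y
      rcases le_or_gt y 0 with hy0 | hy0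
      · simp only [ENNReal.ofReal_of_nonpos (show 2 * y ≤ 0 by linarith), mul_zero, zero_mul]
      · have hB1 : ∀ ξ, ‖hz y ξ‖ ≤ _ := fun ξ => (norm_hz y ξ).le.trans (bd_h hy0 ξ)
        have hB2 : ∀ ξ, ‖hy y ξ‖ ≤ _ := fun ξ => (norm_hy y ξ).le.trans (bd_h hy0 ξ)
        have p1 := pl (int_hz hy0) (cont_hz' y) hB1 (ker_z hy0) hf
        have p2 := pl (int_hy hy0) (cont_hy' y) hB2 (ker_y hy0) hf
        have m1 : Measurable fun z : ℝ => ‖Gz f (z, y)‖ₑ ^ 2 := by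
          have h1 : Measurable (Gz f) := meas_conv meas_kz hf
          exact ((h1.comp (by fun_prop : Measurable fun z : ℝ => (z, y))).enorm).pow_const 2
        have m2 : Measurable fun ξ : ℝ => ‖hz y ξ‖ₑ ^ 2 * ‖𝓕 f ξ‖ₑ ^ 2 :=
          (((cont_hz' y).measurable.enorm).pow_const 2).mul
            (((cont_four hf).measurable.enorm).pow_const 2)
        have m3 : Measurable fun ξ : ℝ => (‖hz y ξ‖ₑ ^ 2 + ‖hy y ξ‖ₑ ^ 2) * ‖𝓕 f ξ‖ₑ ^ 2 :=
          ((((cont_hz' y).measurable.enorm).pow_const 2).add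
            (((cont_hy' y).measurable.enorm).pow_const 2)).mul
            (((cont_four hf).measurable.enorm).pow_const 2)
        have m6 : Measurable fun z : ℝ => G2 f (z, y) :=
          hG.comp (by fun_prop : Measurable fun z : ℝ => (z, y))
        change ∫⁻ z : ℝ, G2 f (z, y) * ENNReal.ofReal (2 * y) = _
        rw [lintegral_mul_const _ m6, lintegral_const_mul _ m3, mul_comm]
        congr 1
        unfold G2
        rw [lintegral_add_left m1]
        have q1 : ∫⁻ z : ℝ, ‖Gz f (z, y)‖ₑ ^ 2 = ∫⁻ ξ, ‖hz y ξ‖ₑ ^ 2 * ‖𝓕 f ξ‖ₑ ^ 2 := p1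
        have q2 : ∫⁻ z : ℝ, ‖Gy f (z, y)‖ₑ ^ 2 = ∫⁻ ξ, ‖hy y ξ‖ₑ ^ 2 * ‖𝓕 f ξ‖ₑ ^ 2 := p2
        rw [q1, q2, ← lintegral_add_left m2]
        refine lintegral_congr fun ξ => ?_
        rw [add_mul]
    simp_rw [s3]
    have m4 : Measurable fun r : ℝ × ℝ => ENNReal.ofReal (2 * r.1) *
        ((‖hz r.1 r.2‖ₑ ^ 2 + ‖hy r.1 r.2‖ₑ ^ 2) * ‖𝓕 f r.2‖ₑ ^ 2) := by
      have n1 : Measurable fun r : ℝ × ℝ => ENNReal.ofReal (2 * r.1) := by fun_prop
      have n2 : Measurable fun r : ℝ × ℝ => ‖hz r.1 r.2‖ₑ ^ 2 + ‖hy r.1 r.2‖ₑ ^ 2 :=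
        ((cont_hz.measurable.enorm).pow_const 2).add ((cont_hy.measurable.enorm).pow_const 2)
      have n3 : Measurable fun r : ℝ × ℝ => ‖𝓕 f r.2‖ₑ ^ 2 :=
        ((((cont_four hf).measurable).comp measurable_snd).enorm).pow_const 2
      exact n1.mul (n2.mul n3)
    rw [lintegral_lintegral_swap m4.aemeasurable, one_mul, ← hF]
    refine lintegral_mono fun ξ => ?_
    have m5 : Measurable fun y : ℝ => ENNReal.ofReal (2 * y) * (‖hz y ξ‖ₑ ^ 2 + ‖hy y ξ‖ₑ ^ 2) := by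
      have n1 : Measurable fun y : ℝ => ENNReal.ofReal (2 * y) := by fun_prop
      refine n1.mul ?_
      exact (((cont_hz.measurable.comp (by fun_prop : Measurable fun y : ℝ => (y, ξ))).enorm).pow_const
        2).add (((cont_hy.measurable.comp (by fun_prop : Measurable fun y : ℝ =>
          (y, ξ))).enorm).pow_const 2)
    calc ∫⁻ y : ℝ, ENNReal.ofReal (2 * y) * ((‖hz y ξ‖ₑ ^ 2 + ‖hy y ξ‖ₑ ^ 2) * ‖𝓕 f ξ‖ₑ ^ 2)
        = ∫⁻ y : ℝ, ENNReal.ofReal (2 * y) * (‖hz y ξ‖ₑ ^ 2 + ‖hy y ξ‖ₑ ^ 2) * ‖𝓕 f ξ‖ₑ ^ 2 := by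
          refine lintegral_congr fun y => ?_
          rw [mul_assoc]
      _ = (∫⁻ y : ℝ, ENNReal.ofReal (2 * y) * (‖hz y ξ‖ₑ ^ 2 + ‖hy y ξ‖ₑ ^ 2)) * ‖𝓕 f ξ‖ₑ ^ 2 :=
          lintegral_mul_const _ m5
      _ ≤ 1 * ‖𝓕 f ξ‖ₑ ^ 2 := by gcongr; exact y_int ξ
      _ = ‖𝓕 f ξ‖ₑ ^ 2 := one_mul _
  · have h1 : MeasurableSet {r : ℝ × (ℝ × ℝ) | |r.2.1 - r.1| < r.2.2} :=
      measurableSet_lt (by fun_prop) (by fun_prop)
    have h2 : (Function.uncurry fun (x : ℝ) (q : ℝ × ℝ) =>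
        {q : ℝ × ℝ | |q.1 - x| < q.2}.indicator (G2 f) q) =
        {r : ℝ × (ℝ × ℝ) | |r.2.1 - r.1| < r.2.2}.indicator (fun r => G2 f r.2) := by
      funext r
      rcases r with ⟨x, q⟩
      by_cases h : |q.1 - x| < q.2
      · simp only [Function.uncurry]
        rw [indicator_of_mem (by exact h), indicator_of_mem (by exact h)]
      · simp only [Function.uncurry]
        rw [indicator_of_notMem (by exact h), indicator_of_notMem (by exact h)]
    rw [h2]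
    exact ((hG.comp measurable_snd).indicator h1).aemeasurable

end Pool.Agent.U978.GL
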